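import Mathlib
import Pool.Agent.W192.CM.Parts
import Pool.Agent.W196.CY.TAIL

/-!
CM-TAIL: the tail sum over a subgroup of the ray class group.  Adaptation of the files of helper196
and helper736.
-/

set_option autoImplicit false

namespace Pool.Agent.W346.CM

open Pool.Agent.W192.CM
open Pool.Agent.W196.CY (pw rpow_mul_exp_neg_le_one)

/-- large `Y` -/
theorem case1 {ε η δ Q D Y c E h K : ℝ} (hε : 0 < ε) (hε4 : ε < 1 / 12) (hη : 0 ≤ η) (hδ : 0 < δ)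
    (hpar : 2 * η + 2 * δ ≤ ε) (hη4 : η ≤ 1 / 16) (hδ4 : δ ≤ 1 / 16)
    (hQ : 1 ≤ Q) (hD : Q ^ (2 / 3 + ε) ≤ D) (hE : 0 ≤ E)
    (hED : E ≤ D) (hh : E * h ≤ Q) (hK : 0 ≤ K)
    (hY : Q ^ (2 / 3 : ℝ) ≤ Y)
    (hc : c ≤ K * Y ^ η * (Y / Q + 1) * h) :
    E * c * Y ^ (-1 / 2 + η) * Real.exp (-(Y / (2 * Q ^ (2 / 3 + ε / 2)))) ≤
      4 * K * (D * Q ^ (-δ)) * Y ^ (-δ / 2) := by
  have hQ0 : 0 < Q := lt_of_lt_of_le one_pos hQ
  have hY0 : 0 < Y := lt_of_lt_of_le (Real.rpow_pos_of_pos hQ0 _) hY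
  have h1 := pw (j := 1) (K := K) (η := η) (c := c) (h := h) le_rfl hQ0 hY0 hE hED hh hK
    (by simpa using hc)
  rw [pow_one, pow_one, Nat.sub_self, pow_zero, mul_one] at h1
  set Z := Q ^ (2 / 3 + ε / 2) with hZ
  have hZ0 : 0 < Z := Real.rpow_pos_of_pos hQ0 _
  set X := Real.exp (-(Y / (2 * Z))) with hX
  have hX0 : 0 < X := Real.exp_pos _
  have hX1 : X ≤ 1 := by
    rw [hX, Real.exp_le_one_iff]
    have : 0 < Y / (2 * Z) := by positivity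
    linarith
  have hDQ : Q ^ (2 / 3 + ε - δ) ≤ D * Q ^ (-δ) := by
    have h2 : Q ^ (2 / 3 + ε - δ) = Q ^ (2 / 3 + ε) * Q ^ (-δ) := by
      rw [← Real.rpow_add hQ0]; ring_nf
    rw [h2]
    exact mul_le_mul_of_nonneg_right hD (Real.rpow_nonneg hQ0.le _)
  -- first part
  have hp1 : Y ^ (1 / 2 + 2 * η + δ / 2) * X ≤ 2 * Q ^ (2 / 3 + ε - δ) := by
    have h2 : Y ^ (1 / 2 + 2 * η + δ / 2) * X =
        (2 * Z) ^ (1 / 2 + 2 * η + δ / 2) * ((Y / (2 * Z)) ^ (1 / 2 + 2 * η + δ / 2) * X) := by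
      rw [← mul_assoc, ← Real.mul_rpow (by positivity) (by positivity)]
      congr 2
      field_simp
    rw [h2]
    have h3 : (Y / (2 * Z)) ^ (1 / 2 + 2 * η + δ / 2) * X ≤ 1 :=
      rpow_mul_exp_neg_le_one (by positivity) (by linarith) (by linarith)
    have h4 : (2 * Z) ^ (1 / 2 + 2 * η + δ / 2) ≤ 2 * Q ^ (2 / 3 + ε - δ) := by
      rw [Real.mul_rpow (by norm_num) hZ0.le]
      have h5 : (2 : ℝ) ^ (1 / 2 + 2 * η + δ / 2) ≤ 2 := by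
        calc (2 : ℝ) ^ (1 / 2 + 2 * η + δ / 2) ≤ (2 : ℝ) ^ (1 : ℝ) :=
              Real.rpow_le_rpow_of_exponent_le (by norm_num) (by linarith)
          _ = 2 := Real.rpow_one 2
      have h6 : Z ^ (1 / 2 + 2 * η + δ / 2) ≤ Q ^ (2 / 3 + ε - δ) := by
        rw [hZ, ← Real.rpow_mul hQ0.le]
        apply Real.rpow_le_rpow_of_exponent_le hQ
        have h7 : (2 / 3 + ε / 2) * (1 / 2 + 2 * η + δ / 2) ≤ 3 / 4 * (3 / 4) :=
          mul_le_mul (by linarith) (by linarith) (by linarith) (by norm_num)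
        linarith
      exact mul_le_mul h5 h6 (Real.rpow_nonneg hZ0.le _) (by norm_num)
    calc _ ≤ (2 * Z) ^ (1 / 2 + 2 * η + δ / 2) * 1 :=
          mul_le_mul_of_nonneg_left h3 (Real.rpow_nonneg (by positivity) _)
      _ ≤ _ := by rw [mul_one]; exact h4
  have hp2 : Q * Y ^ (-1 / 2 + 2 * η + δ / 2) * X ≤ Q ^ (2 / 3 + ε - δ) := by
    have h2 : Y ^ (-1 / 2 + 2 * η + δ / 2) ≤ (Q ^ (2 / 3 : ℝ)) ^ (-1 / 2 + 2 * η + δ / 2) :=
      Real.rpow_le_rpow_of_nonpos (Real.rpow_pos_of_pos hQ0 _) hY (by linarith)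
    have h3 : Q * Y ^ (-1 / 2 + 2 * η + δ / 2) ≤ Q ^ (2 / 3 + ε - δ) := by
      calc Q * Y ^ (-1 / 2 + 2 * η + δ / 2) ≤
            Q * (Q ^ (2 / 3 : ℝ)) ^ (-1 / 2 + 2 * η + δ / 2) :=
            mul_le_mul_of_nonneg_left h2 hQ0.le
        _ = Q ^ (1 + 2 / 3 * (-1 / 2 + 2 * η + δ / 2)) := by
            rw [← Real.rpow_mul hQ0.le, Real.rpow_add hQ0, Real.rpow_one]
        _ ≤ _ := by
            apply Real.rpow_le_rpow_of_exponent_le hQ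
            linarith
    calc Q * Y ^ (-1 / 2 + 2 * η + δ / 2) * X ≤ Q * Y ^ (-1 / 2 + 2 * η + δ / 2) * 1 :=
          mul_le_mul_of_nonneg_left hX1 (mul_nonneg hQ0.le (Real.rpow_nonneg hY0.le _))
      _ ≤ _ := by rw [mul_one]; exact h3
  have hYd : 0 < Y ^ (-δ / 2) := Real.rpow_pos_of_pos hY0 _
  have e1 : Y ^ η * Y * Y ^ (-1 / 2 + η) = Y ^ (1 / 2 + 2 * η + δ / 2) * Y ^ (-δ / 2) := by
    nth_rewrite 2 [← Real.rpow_one Y]
    rw [← Real.rpow_add hY0, ← Real.rpow_add hY0, ← Real.rpow_add hY0]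
    ring_nf
  have e2 : Y ^ η * Y ^ (-1 / 2 + η) = Y ^ (-1 / 2 + 2 * η + δ / 2) * Y ^ (-δ / 2) := by
    rw [← Real.rpow_add hY0, ← Real.rpow_add hY0]
    ring_nf
  calc E * c * Y ^ (-1 / 2 + η) * X ≤ (K * Y ^ η * (Y + Q)) * Y ^ (-1 / 2 + η) * X := by
        apply mul_le_mul_of_nonneg_right _ hX0.le
        exact mul_le_mul_of_nonneg_right h1 (Real.rpow_nonneg hY0.le _)
    _ = K * (Y ^ η * Y * Y ^ (-1 / 2 + η) * X + Q * (Y ^ η * Y ^ (-1 / 2 + η)) * X) := by ring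
    _ = K * ((Y ^ (1 / 2 + 2 * η + δ / 2) * X + Q * Y ^ (-1 / 2 + 2 * η + δ / 2) * X)
          * Y ^ (-δ / 2)) := by rw [e1, e2]; ring
    _ ≤ K * ((4 * (D * Q ^ (-δ))) * Y ^ (-δ / 2)) := by
        apply mul_le_mul_of_nonneg_left _ hK
        apply mul_le_mul_of_nonneg_right _ hYd.le
        have : 0 < D * Q ^ (-δ) := lt_of_lt_of_le (Real.rpow_pos_of_pos hQ0 _) hDQ
        linarith
    _ = _ := by ring

/-- small `Y` -/
theorem case2 {ε η δ Q D Y c E h K : ℝ} {J : ℕ} (hε : 0 < ε) (hη : 0 ≤ η)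
    (hδ : 0 < δ) (hpar : 2 * η + 2 * δ / 3 + J * δ ≤ ε) (hηδ : η + δ / 2 ≤ 1 / 2)
    (hJ : 4 / 3 ≤ ε * J)
    (hQ : 1 < Q) (hD : Q ^ (2 / 3 + ε) ≤ D) (hE : 0 ≤ E) (hc0 : 0 ≤ c)
    (hED : E ≤ D) (hh : E * h ≤ Q) (hK : 1 ≤ K)
    (hY : Y < Q ^ (2 / 3 : ℝ)) (hY1 : 1 ≤ Y) (hYB : Q ^ (ε / 2) < Y)
    (hc : ∀ j : ℕ, 1 ≤ j → j ≤ J → c ^ j ≤ K * Y ^ η * (Y ^ j / Q + 1) * h) :
    E * c * Y ^ (-1 / 2 + η) ≤ 4 * K * (D * Q ^ (-δ)) * Y ^ (-δ / 2) := by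
  classical
  have hQ0 : 0 < Q := lt_trans one_pos hQ
  have hY0 : 0 < Y := lt_of_lt_of_le one_pos hY1
  have hK0 : 0 < K := lt_of_lt_of_le one_pos hK
  have hex : Q ^ (2 / 3 : ℝ) ≤ Y ^ J := by
    calc Q ^ (2 / 3 : ℝ) ≤ Q ^ (ε / 2 * J) := by
          apply Real.rpow_le_rpow_of_exponent_le hQ.le
          linarith
      _ = (Q ^ (ε / 2)) ^ J := by rw [Real.rpow_mul_natCast hQ0.le]
      _ ≤ Y ^ J := pow_le_pow_left₀ (Real.rpow_nonneg hQ0.le _) hYB.le J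
  have hex' : ∃ j : ℕ, Q ^ (2 / 3 : ℝ) ≤ Y ^ j := ⟨J, hex⟩
  obtain ⟨m, hm⟩ : ∃ m, Nat.find hex' = m + 1 := by
    have h0 : Nat.find hex' ≠ 0 := by
      intro h0
      have := Nat.find_spec hex'
      rw [h0, pow_zero] at this
      have h1 : 1 < Q ^ (2 / 3 : ℝ) := Real.one_lt_rpow hQ (by norm_num)
      linarith
    exact ⟨Nat.find hex' - 1, by omega⟩
  have hmJ : m + 1 ≤ J := by rw [← hm]; exact Nat.find_min' hex' hex
  have hlow : Q ^ (2 / 3 : ℝ) ≤ Y ^ (m + 1) := by rw [← hm]; exact Nat.find_spec hex'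
  have hup : Y ^ m < Q ^ (2 / 3 : ℝ) := by
    have := Nat.find_min hex' (m := m) (by omega)
    exact lt_of_not_ge this
  have hup' : Y ^ (m + 1) ≤ Q ^ (4 / 3 : ℝ) := by
    calc Y ^ (m + 1) = Y ^ m * Y := pow_succ _ _
      _ ≤ Q ^ (2 / 3 : ℝ) * Q ^ (2 / 3 : ℝ) :=
        mul_le_mul hup.le hY.le hY0.le (Real.rpow_nonneg hQ0.le _)
      _ = Q ^ (4 / 3 : ℝ) := by rw [← Real.rpow_add hQ0]; norm_num
  have h1 := pw (j := m + 1) (K := K) (η := η) (c := c) (h := h) (by omega) hQ0 hY0 hE hED hh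
    hK0.le (hc (m + 1) (by omega) hmJ)
  rw [Nat.add_sub_cancel] at h1
  have hD0 : 0 < D := lt_of_lt_of_le (Real.rpow_pos_of_pos hQ0 _) hD
  set X := E * c * Y ^ (-1 / 2 + η + δ / 2) with hX
  have hX0 : 0 ≤ X := mul_nonneg (mul_nonneg hE hc0) (Real.rpow_nonneg hY0.le _)
  have hYη : Y ^ η ≤ Q ^ (2 * η / 3) := by
    calc Y ^ η ≤ (Q ^ (2 / 3 : ℝ)) ^ η := Real.rpow_le_rpow hY0.le hY.le hη
      _ = Q ^ (2 * η / 3) := by rw [← Real.rpow_mul hQ0.le]; ring_nf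
  have hYm0 : 0 < Y ^ (m + 1) := by positivity
  have hYe : (Y ^ (-1 / 2 + η + δ / 2)) ^ (m + 1) = (Y ^ (m + 1)) ^ (-1 / 2 + η + δ / 2) := by
    rw [← Real.rpow_natCast, ← Real.rpow_natCast, ← Real.rpow_mul hY0.le,
      ← Real.rpow_mul hY0.le, mul_comm]
  have hA : Y ^ (m + 1) * (Y ^ (-1 / 2 + η + δ / 2)) ^ (m + 1) ≤
      Q ^ (2 / 3 + 4 * η / 3 + 2 * δ / 3) := by
    rw [hYe]
    calc Y ^ (m + 1) * (Y ^ (m + 1)) ^ (-1 / 2 + η + δ / 2)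
        = (Y ^ (m + 1)) ^ (1 / 2 + η + δ / 2) := by
          nth_rewrite 1 [← Real.rpow_one (Y ^ (m + 1))]
          rw [← Real.rpow_add hYm0]
          ring_nf
      _ ≤ (Q ^ (4 / 3 : ℝ)) ^ (1 / 2 + η + δ / 2) :=
          Real.rpow_le_rpow hYm0.le hup' (by linarith)
      _ = _ := by rw [← Real.rpow_mul hQ0.le]; ring_nf
  have hB : Q * (Y ^ (-1 / 2 + η + δ / 2)) ^ (m + 1) ≤
      Q ^ (2 / 3 + 4 * η / 3 + 2 * δ / 3) := by
    rw [hYe]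
    calc Q * (Y ^ (m + 1)) ^ (-1 / 2 + η + δ / 2)
        ≤ Q * (Q ^ (2 / 3 : ℝ)) ^ (-1 / 2 + η + δ / 2) :=
          mul_le_mul_of_nonneg_left
            (Real.rpow_le_rpow_of_nonpos (Real.rpow_pos_of_pos hQ0 _) hlow (by linarith)) hQ0.le
      _ = Q ^ (1 + 2 / 3 * (-1 / 2 + η + δ / 2)) := by
          rw [← Real.rpow_mul hQ0.le, Real.rpow_add hQ0, Real.rpow_one]
      _ ≤ _ := by
          apply Real.rpow_le_rpow_of_exponent_le hQ.le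
          linarith
  have hmain : X ^ (m + 1) ≤ (2 * K * (D * Q ^ (-δ))) ^ (m + 1) := by
    have hY1' : 0 ≤ (Y ^ (-1 / 2 + η + δ / 2)) ^ (m + 1) := by positivity
    calc X ^ (m + 1) = (E * c) ^ (m + 1) * (Y ^ (-1 / 2 + η + δ / 2)) ^ (m + 1) := by
          rw [hX, mul_pow]
      _ ≤ (K * Y ^ η * (Y ^ (m + 1) + Q) * D ^ m) * (Y ^ (-1 / 2 + η + δ / 2)) ^ (m + 1) :=
          mul_le_mul_of_nonneg_right h1 hY1'
      _ = (K * D ^ m * Y ^ η) * (Y ^ (m + 1) * (Y ^ (-1 / 2 + η + δ / 2)) ^ (m + 1) +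
            Q * (Y ^ (-1 / 2 + η + δ / 2)) ^ (m + 1)) := by ring
      _ ≤ (K * D ^ m * Q ^ (2 * η / 3)) * (Q ^ (2 / 3 + 4 * η / 3 + 2 * δ / 3) +
            Q ^ (2 / 3 + 4 * η / 3 + 2 * δ / 3)) := by
          apply mul_le_mul (mul_le_mul_of_nonneg_left hYη (by positivity)) (add_le_add hA hB)
            (by positivity) (by positivity)
      _ = 2 * K * D ^ m * (Q ^ (2 * η / 3) * Q ^ (2 / 3 + 4 * η / 3 + 2 * δ / 3)) := by ring
      _ = 2 * K * D ^ m * Q ^ (2 / 3 + 2 * η + 2 * δ / 3) := by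
          rw [← Real.rpow_add hQ0]; ring_nf
      _ ≤ 2 * K * D ^ m * (Q ^ (2 / 3 + ε) * (Q ^ (-δ)) ^ (m + 1)) := by
          apply mul_le_mul_of_nonneg_left _ (by positivity)
          rw [← Real.rpow_mul_natCast hQ0.le, ← Real.rpow_add hQ0]
          apply Real.rpow_le_rpow_of_exponent_le hQ.le
          have h5 : ((m + 1 : ℕ) : ℝ) ≤ J := by exact_mod_cast hmJ
          have h6 : ((m + 1 : ℕ) : ℝ) * δ ≤ J * δ := mul_le_mul_of_nonneg_right h5 hδ.le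
          linarith
      _ ≤ 2 * K * D ^ m * (D * (Q ^ (-δ)) ^ (m + 1)) := by
          apply mul_le_mul_of_nonneg_left _ (by positivity)
          exact mul_le_mul_of_nonneg_right hD (by positivity)
      _ = (2 * K) * (D * Q ^ (-δ)) ^ (m + 1) := by rw [mul_pow]; ring
      _ ≤ (2 * K) ^ (m + 1) * (D * Q ^ (-δ)) ^ (m + 1) := by
          apply mul_le_mul_of_nonneg_right _ (by positivity)
          exact le_self_pow₀ (by linarith) (by omega)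
      _ = _ := by rw [← mul_pow]
  have hfin : X ≤ 2 * K * (D * Q ^ (-δ)) :=
    le_of_pow_le_pow_left₀ (Nat.succ_ne_zero m) (by positivity) hmain
  have e1 : E * c * Y ^ (-1 / 2 + η) = X * Y ^ (-δ / 2) := by
    rw [hX, mul_assoc, mul_assoc, mul_assoc, ← Real.rpow_add hY0]
    ring_nf
  rw [e1]
  apply mul_le_mul_of_nonneg_right _ (Real.rpow_nonneg hY0.le _)
  have : 0 < K * (D * Q ^ (-δ)) := by positivity
  linarith

/-- the block estimate -/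
theorem block (hC : C_COUNT) {R : Subring ℂ} {ω : ℂ} (hR : CMRing R ω) {ε : ℝ} (hε : 0 < ε)
    (hε4 : ε < 1 / 12) :
    ∃ K : ℝ, 0 < K ∧ ∀ (κ : R), κ ≠ 0 → ∀ Q : ℝ, Q = Complex.normSq (κ : ℂ) → 1 ≤ Q →
      ∀ (d e : ℕ), e ∣ d → Q ^ (2 / 3 + ε) ≤ d →
      ∀ H : Subgroup (Aq R κ)ˣ, (e * Nat.card H : ℝ) ≤ Q →
      ∀ Y : ℝ, 1 ≤ Y → Q ^ (ε / 2) < Y →
      (e : ℝ) * cntR H Y * Y ^ (-1 / 2 + ε / 16) *
        Real.exp (-(Y / (2 * Q ^ (2 / 3 + ε / 2)))) ≤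
        K * (d * Q ^ (-(ε ^ 2 / 4))) * Y ^ (-(ε ^ 2 / 4) / 2) := by
  have hη : 0 < ε / 16 := by positivity
  have hδ : 0 < ε ^ 2 / 4 := by positivity
  have hδ1 : ε ^ 2 / 4 ≤ ε / 48 := by nlinarith
  obtain ⟨J, hJdef⟩ : ∃ J : ℕ, J = ⌈2 / ε⌉₊ := ⟨_, rfl⟩
  have hJ1 : 2 ≤ ε * J := by
    have h1 : 2 / ε ≤ J := by rw [hJdef]; exact Nat.le_ceil _
    rw [div_le_iff₀ hε] at h1
    linarith
  have hJ2 : (J : ℝ) * (ε ^ 2 / 4) ≤ ε / 2 + ε / 48 := by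
    have h1 : (J : ℝ) < 2 / ε + 1 := by rw [hJdef]; exact Nat.ceil_lt_add_one (by positivity)
    have h3 : (2 / ε + 1) * (ε ^ 2 / 4) = ε / 2 + ε ^ 2 / 4 := by field_simp; ring
    have h4 := mul_le_mul_of_nonneg_right h1.le hδ.le
    linarith
  have hex : ∀ j : ℕ, ∃ C : ℝ, 0 < C ∧ (1 ≤ j → ∀ κ : R, κ ≠ 0 →
      ∀ (H : Subgroup (Aq R κ)ˣ) (y : ℝ), 1 ≤ y →
        (cntR H y : ℝ) ^ j ≤
          C * y ^ (ε / 16) * (y ^ j / Complex.normSq (κ : ℂ) + 1) * Nat.card H) := by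
    intro j
    by_cases hj : 1 ≤ j
    · obtain ⟨C, hC0, hC1⟩ := hC R ω hR j hj (ε / 16) hη
      exact ⟨C, hC0, fun _ => hC1⟩
    · exact ⟨1, one_pos, fun h => absurd h hj⟩
  choose Cj hCj0 hCj using hex
  obtain ⟨K, hK⟩ : ∃ K : ℝ, K = 1 + ∑ j ∈ Finset.range (J + 1), Cj j := ⟨_, rfl⟩
  have hKj : ∀ j, j ≤ J → Cj j ≤ K := by
    intro j hj
    have h1 : Cj j ≤ ∑ j ∈ Finset.range (J + 1), Cj j :=
      Finset.single_le_sum (f := Cj) (fun i _ => (hCj0 i).le) (by simp; omega)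
    linarith
  have hK1 : 1 ≤ K := by
    have : 0 ≤ ∑ j ∈ Finset.range (J + 1), Cj j := Finset.sum_nonneg fun i _ => (hCj0 i).le
    linarith
  refine ⟨4 * K, by positivity, ?_⟩
  intro κ hκ Q hQdef hQ1 d e hed hd H hEh Y hY1 hYB
  have hd0 : 0 < d := by
    have h0 : (0 : ℝ) < d :=
      lt_of_lt_of_le (Real.rpow_pos_of_pos (by linarith) _) hd
    exact_mod_cast h0
  have hE : (e : ℝ) ≤ d := by exact_mod_cast Nat.le_of_dvd hd0 hed
  have hY0 : 0 < Y := by linarith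
  have hcK : ∀ j : ℕ, 1 ≤ j → j ≤ J → (cntR H Y : ℝ) ^ j ≤
      K * Y ^ (ε / 16) * (Y ^ j / Q + 1) * Nat.card H := by
    intro j hj hjJ
    have h2 := hCj j hj κ hκ H Y hY1
    rw [← hQdef] at h2
    refine h2.trans ?_
    have := hKj j hjJ
    have hQ0 : 0 < Q := by linarith
    gcongr
  have hJpos : 1 ≤ J := by
    rcases Nat.eq_zero_or_pos J with h0 | h0
    · rw [h0] at hJ1
      norm_num at hJ1
    · exact h0
  rcases le_or_gt (Q ^ (2 / 3 : ℝ)) Y with h | h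
  · refine (case1 (ε := ε) (η := ε / 16) (δ := ε ^ 2 / 4) (Q := Q) (D := d) (Y := Y)
      (c := cntR H Y) (E := e) (h := Nat.card H) (K := K) hε hε4 hη.le hδ ?_ (by linarith)
      (by linarith) hQ1 hd
      (Nat.cast_nonneg _) hE hEh (by linarith) h ?_)
    · linarith
    · have := hcK 1 le_rfl hJpos
      simpa using this
  · have hQ : (1 : ℝ) < Q := by
      rcases hQ1.eq_or_lt with h1 | h1
      · rw [← h1, Real.one_rpow] at h
        linarith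
      · exact h1
    have h2 := case2 (ε := ε) (η := ε / 16) (δ := ε ^ 2 / 4) (Q := Q) (D := d) (Y := Y)
      (c := cntR H Y) (E := e) (h := Nat.card H) (K := K) (J := J) hε hη.le hδ
      (by linarith) (by linarith) (by linarith) hQ hd
      (Nat.cast_nonneg _) (Nat.cast_nonneg _) hE hEh hK1 h hY1 hYB hcK
    have h3 : Real.exp (-(Y / (2 * Q ^ (2 / 3 + ε / 2)))) ≤ 1 := by
      rw [Real.exp_le_one_iff]
      have : 0 ≤ Y / (2 * Q ^ (2 / 3 + ε / 2)) := by positivity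
      linarith
    refine le_trans ?_ h2
    exact mul_le_of_le_one_right (by positivity) h3

open Classical in
theorem fiber_bound {R : Subring ℂ} {κ : R} (nn : R → ℕ)
    (hnn : ∀ γ : R, Complex.normSq (γ : ℂ) = nn γ)
    (hfin : ∀ y : ℝ, 0 ≤ y → {γ : R | Complex.normSq (γ : ℂ) ≤ y}.Finite)
    (H : Subgroup (Aq R κ)ˣ) {B Z η : ℝ} (hB : 0 < B) (hZ : 0 < Z)
    (hη : η ≤ 1 / 2) (hη0 : 0 ≤ η) (F : Finset R) (i : ℕ)
    (hF : ∀ γ ∈ F, Nat.log 2 (nn γ) = i) :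
    ∑ γ ∈ F, (if B < Complex.normSq (γ : ℂ) ∧
        ∃ x ∈ H, ((x : (Aq R κ)ˣ) : Aq R κ) = Ideal.Quotient.mk (Ideal.span {κ}) γ
      then (Complex.normSq (γ : ℂ)) ^ (-1 / 2 + η) *
        Real.exp (-(Complex.normSq (γ : ℂ) / Z)) else 0) ≤
      if B < (2 : ℝ) ^ (i + 1) then
        2 * (cntR H ((2 : ℝ) ^ (i + 1)) * ((2 : ℝ) ^ (i + 1)) ^ (-1 / 2 + η) *
          Real.exp (-((2 : ℝ) ^ (i + 1) / (2 * Z)))) else 0 := by
  set P : R → Prop := fun γ => B < Complex.normSq (γ : ℂ) ∧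
        ∃ x ∈ H, ((x : (Aq R κ)ˣ) : Aq R κ) = Ideal.Quotient.mk (Ideal.span {κ}) γ with hP
  set f : R → ℝ := fun γ => (Complex.normSq (γ : ℂ)) ^ (-1 / 2 + η) *
        Real.exp (-(Complex.normSq (γ : ℂ) / Z)) with hf
  set w : ℝ := ((2 : ℝ) ^ i) ^ (-1 / 2 + η) * Real.exp (-((2 : ℝ) ^ i / Z)) with hw
  have hw0 : 0 ≤ w := by positivity
  have hpos : ∀ γ, P γ → 0 < nn γ := by
    intro γ hγ
    have h1 := hγ.1
    rw [hnn] at h1
    have : (0 : ℝ) < nn γ := hB.trans h1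
    exact_mod_cast this
  have hle : ∀ γ ∈ F, P γ → f γ ≤ w := by
    intro γ hγ hγP
    have hk0 := hpos γ hγP
    have h1 : 2 ^ i ≤ nn γ := by
      rw [← hF γ hγ]; exact Nat.pow_log_le_self 2 hk0.ne'
    have h2 : (2 : ℝ) ^ i ≤ Complex.normSq (γ : ℂ) := by
      rw [hnn]; exact_mod_cast h1
    apply mul_le_mul
    · exact Real.rpow_le_rpow_of_nonpos (by positivity) h2 (by linarith)
    · apply Real.exp_le_exp.mpr
      have : (2 : ℝ) ^ i / Z ≤ Complex.normSq (γ : ℂ) / Z := by gcongr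
      linarith
    · exact (Real.exp_pos _).le
    · positivity
  have hlt : ∀ γ ∈ F, P γ → Complex.normSq (γ : ℂ) ≤ (2 : ℝ) ^ (i + 1) := by
    intro γ hγ hγP
    have h1 : nn γ < 2 ^ (i + 1) := by
      rw [← hF γ hγ]; exact Nat.lt_pow_succ_log_self (by norm_num) _
    rw [hnn]
    exact_mod_cast h1.le
  have hsum : ∑ γ ∈ F, (if P γ then f γ else 0) = ∑ γ ∈ F.filter P, f γ := by
    rw [Finset.sum_filter]
  rw [hsum]
  split_ifs with hBi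
  · have h1 : ∑ γ ∈ F.filter P, f γ ≤ (F.filter P).card * w := by
      rw [← nsmul_eq_mul]
      apply Finset.sum_le_card_nsmul
      intro k hk
      rw [Finset.mem_filter] at hk
      exact hle k hk.1 hk.2
    have h2 : (F.filter P).card ≤ cntR H ((2 : ℝ) ^ (i + 1)) := by
      rw [cntR, ← Set.ncard_coe_finset]
      apply Set.ncard_le_ncard
      · intro k hk
        rw [Finset.mem_coe, Finset.mem_filter] at hk
        obtain ⟨x, hx, hxk⟩ := hk.2.2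
        refine ⟨hlt k hk.1 hk.2, x, hx, hxk, ?_⟩
        rintro rfl
        have := hk.2.1
        simp only [ZeroMemClass.coe_zero, map_zero] at this
        linarith
      · refine (hfin ((2 : ℝ) ^ (i + 1)) (by positivity)).subset ?_
        intro k hk
        exact hk.1
    have h3 : w ≤ 2 * (((2 : ℝ) ^ (i + 1)) ^ (-1 / 2 + η) *
          Real.exp (-((2 : ℝ) ^ (i + 1) / (2 * Z)))) := by
      have h4 : (2 : ℝ) ^ (i + 1) / (2 * Z) = (2 : ℝ) ^ i / Z := by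
        rw [pow_succ]; field_simp
      rw [h4, hw, ← mul_assoc]
      apply mul_le_mul_of_nonneg_right _ (Real.exp_pos _).le
      have h5 : ((2 : ℝ) ^ (i + 1)) ^ (-1 / 2 + η) =
          ((2 : ℝ) ^ i) ^ (-1 / 2 + η) * (2 : ℝ) ^ (-1 / 2 + η) := by
        rw [pow_succ, Real.mul_rpow (by positivity) (by norm_num)]
      rw [h5]
      have h6 : 1 ≤ 2 * (2 : ℝ) ^ (-1 / 2 + η) := by
        have : 2 * (2 : ℝ) ^ (-1 / 2 + η) = (2 : ℝ) ^ (1 + (-1 / 2 + η)) := by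
          rw [Real.rpow_add (by norm_num) 1 (-1 / 2 + η), Real.rpow_one]
        rw [this]
        exact Real.one_le_rpow (by norm_num) (by linarith)
      have h7 : 0 ≤ ((2 : ℝ) ^ i) ^ (-1 / 2 + η) := by positivity
      nlinarith
    calc ∑ k ∈ F.filter P, f k ≤ (F.filter P).card * w := h1
      _ ≤ (cntR H ((2 : ℝ) ^ (i + 1)) : ℝ) * w := by
          apply mul_le_mul_of_nonneg_right _ hw0
          exact_mod_cast h2
      _ ≤ (cntR H ((2 : ℝ) ^ (i + 1)) : ℝ) * (2 * (((2 : ℝ) ^ (i + 1)) ^ (-1 / 2 + η) *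
          Real.exp (-((2 : ℝ) ^ (i + 1) / (2 * Z))))) :=
          mul_le_mul_of_nonneg_left h3 (Nat.cast_nonneg _)
      _ = _ := by ring
  · apply le_of_eq
    apply Finset.sum_eq_zero
    intro k hk
    rw [Finset.mem_filter] at hk
    exact absurd (lt_of_lt_of_le hk.2.1 (hlt k hk.1 hk.2)) hBi

theorem c_tail (h1 : C_BASIC) (h2 : C_LAT) (h3 : C_COUNT) : C_TAIL := by
  classical
  intro R ω hR ε hε hε4
  obtain ⟨K, hK, hb⟩ := block h3 hR hε hε4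
  obtain ⟨hnat, -, -, -, -⟩ := h1 R ω hR
  obtain ⟨CL, -, hLAT⟩ := h2 R ω hR
  choose nn hnn using hnat
  have hfin : ∀ y : ℝ, 0 ≤ y → {γ : R | Complex.normSq (γ : ℂ) ≤ y}.Finite := by
    intro y hy
    refine (hLAT 1 one_ne_zero 0 y hy).1.subset ?_
    intro γ hγ
    exact ⟨hγ, one_dvd _⟩
  have hδ : 0 < ε ^ 2 / 4 := by positivity
  obtain ⟨δ, hδd⟩ : ∃ δ : ℝ, δ = ε ^ 2 / 4 := ⟨_, rfl⟩
  rw [← hδd] at hb hδ
  obtain ⟨r, hr⟩ : ∃ r : ℝ, r = (2 : ℝ) ^ (-δ / 2) := ⟨_, rfl⟩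
  have hr0 : 0 < r := by rw [hr]; exact Real.rpow_pos_of_pos (by norm_num) _
  have hr1 : r < 1 := by
    rw [hr]; exact Real.rpow_lt_one_of_one_lt_of_neg (by norm_num) (by linarith)
  refine ⟨ε / 16, δ, 2 * K * (1 - r)⁻¹, by positivity, by linarith, hδ,
    by have := sub_pos.mpr hr1; positivity, ?_⟩
  intro κ hκ d e hed _ hd H hH
  obtain ⟨Q, hQ⟩ : ∃ Q : ℝ, Q = Complex.normSq (κ : ℂ) := ⟨_, rfl⟩
  rw [← hQ] at hd hH ⊢
  have hQ1 : 1 ≤ Q := by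
    have h4 : Complex.normSq (κ : ℂ) ≠ 0 := by
      rw [Ne, Complex.normSq_eq_zero]
      exact_mod_cast hκ
    rw [hnn] at h4
    rw [hQ, hnn]
    have h5 : nn κ ≠ 0 := by exact_mod_cast h4
    exact_mod_cast Nat.one_le_iff_ne_zero.2 h5
  have hQ0 : 0 < Q := by linarith
  have hB0 : 0 < Q ^ (ε / 2) := Real.rpow_pos_of_pos hQ0 _
  have hZ0 : 0 < Q ^ (2 / 3 + ε / 2) := Real.rpow_pos_of_pos hQ0 _
  have hblock : ∀ Y : ℝ, 1 ≤ Y → Q ^ (ε / 2) < Y →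
      (e : ℝ) * cntR H Y * Y ^ (-1 / 2 + ε / 16) *
        Real.exp (-(Y / (2 * Q ^ (2 / 3 + ε / 2)))) ≤
        K * (d * Q ^ (-δ)) * Y ^ (-δ / 2) := hb κ hκ Q hQ hQ1 d e hed hd H hH
  obtain ⟨B, hB⟩ : ∃ B : ℝ, B = Q ^ (ε / 2) := ⟨_, rfl⟩
  obtain ⟨Z, hZ⟩ : ∃ Z : ℝ, Z = Q ^ (2 / 3 + ε / 2) := ⟨_, rfl⟩
  rw [← hB] at hblock hB0 ⊢
  rw [← hZ] at hblock hZ0 ⊢
  obtain ⟨A, hA⟩ : ∃ A : ℝ, A = (d : ℝ) * Q ^ (-δ) := ⟨_, rfl⟩
  rw [← hA] at hblock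
  have hA0 : 0 ≤ A := by rw [hA]; positivity
  have hr1' := sub_pos.mpr hr1
  have hgoal : 2 * K * (1 - r)⁻¹ * d * Q ^ (-δ) = 2 * K * A * (1 - r)⁻¹ := by
    rw [hA]; ring
  rw [hgoal, tailR, ← tsum_mul_left]
  apply tsum_le_of_sum_le' (by positivity)
  intro u
  rw [← Finset.mul_sum]
  obtain ⟨n, hn⟩ : ∃ n : ℕ, ∀ γ ∈ u, Nat.log 2 (nn γ) < n :=
    ⟨u.sup (fun γ => Nat.log 2 (nn γ)) + 1, fun γ hγ =>
      Nat.lt_succ_of_le (Finset.le_sup (f := fun γ => Nat.log 2 (nn γ)) hγ)⟩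
  rw [← Finset.sum_fiberwise_of_maps_to (s := u) (t := Finset.range n)
    (g := fun γ => Nat.log 2 (nn γ)) (fun γ hγ => Finset.mem_range.2 (hn γ hγ)), Finset.mul_sum]
  have hterm : ∀ i ∈ Finset.range n, (e : ℝ) *
      (∑ γ ∈ u.filter (fun γ => Nat.log 2 (nn γ) = i),
        (if B < Complex.normSq (γ : ℂ) ∧
        ∃ x ∈ H, ((x : (Aq R κ)ˣ) : Aq R κ) = Ideal.Quotient.mk (Ideal.span {κ}) γ
      then (Complex.normSq (γ : ℂ)) ^ (-1 / 2 + ε / 16) *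
        Real.exp (-(Complex.normSq (γ : ℂ) / Z)) else 0)) ≤
      2 * K * A * r ^ i := by
    intro i _
    have h1 := fiber_bound nn hnn hfin H hB0 hZ0 (η := ε / 16) (by linarith) (by positivity)
      (u.filter (fun γ => Nat.log 2 (nn γ) = i)) i (fun k hk => (Finset.mem_filter.mp hk).2)
    refine (mul_le_mul_of_nonneg_left h1 (Nat.cast_nonneg _)).trans ?_
    split_ifs with hBi
    · have h2 := hblock ((2 : ℝ) ^ (i + 1)) (one_le_pow₀ (by norm_num)) hBi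
      have h3 : ((2 : ℝ) ^ (i + 1)) ^ (-δ / 2) ≤ r ^ i := by
        have h4 : ((2 : ℝ) ^ (i + 1)) ^ (-δ / 2) = r ^ (i + 1) := by
          rw [hr, ← Real.rpow_natCast, ← Real.rpow_natCast, ← Real.rpow_mul (by norm_num),
            ← Real.rpow_mul (by norm_num), mul_comm]
        rw [h4, pow_succ]
        exact mul_le_of_le_one_right (by positivity) hr1.le
      calc _ = 2 * ((e : ℝ) * cntR H ((2 : ℝ) ^ (i + 1)) * ((2 : ℝ) ^ (i + 1)) ^ (-1 / 2 + ε / 16)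
              * Real.exp (-((2 : ℝ) ^ (i + 1) / (2 * Z)))) := by ring
        _ ≤ 2 * (K * A * ((2 : ℝ) ^ (i + 1)) ^ (-δ / 2)) := by linarith
        _ ≤ 2 * (K * A * r ^ i) := by
            have : K * A * ((2 : ℝ) ^ (i + 1)) ^ (-δ / 2) ≤ K * A * r ^ i :=
              mul_le_mul_of_nonneg_left h3 (by positivity)
            linarith
        _ = _ := by ring
    · rw [mul_zero]; positivity
  refine (Finset.sum_le_sum hterm).trans ?_
  rw [← Finset.mul_sum]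
  apply mul_le_mul_of_nonneg_left _ (by positivity)
  rw [← tsum_geometric_of_lt_one hr0.le hr1]
  exact (summable_geometric_of_lt_one hr0.le hr1).sum_le_tsum _ (fun i _ => by positivity)

end Pool.Agent.W346.CM
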